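import Pool.Agent.Helper32.OIP.Goals

/-! Packet OIP-P0 (project OIP of helper32): existence of long runs. -/

open MeasureTheory
open scoped ENNReal

namespace Pool.Agent.Helper15.OIP

open MeasureTheory Pool.Agent.Helper32.OIP Pool.Agent.Helper58.Orb

theorem p0 : GoalP0 := by
  intro hBr hRun A E _ _ _ S D _ _ T ν _ π J k hn hπ hedge hJ hδ hC hk
  haveI : IsProbabilityMeasure (pm A ν) := by unfold pm; infer_instance
  set μ := pm A ν with hμ
  set δ := μ.real {z | π z ≠ 1} with hδdef
  set n : ℝ := (Fintype.card D : ℝ) with hndef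
  have hn2 : (2 : ℝ) ≤ n := by rw [hndef]; exact_mod_cast hn
  set C : ℝ := Real.exp 2 * (Fintype.card D).factorial with hCdef
  have hρ : μ.real {z | Br (π z)} ≤ C * (δ * Real.sqrt δ) := by
    have h1 := hBr A E S D T ν π hπ hedge
    have h2 : δ ^ (3 / 2 : ℝ) = δ * Real.sqrt δ := by
      rw [Real.sqrt_eq_rpow, show (3 / 2 : ℝ) = 1 + 1 / 2 by norm_num, Real.rpow_add hδ,
        Real.rpow_one]
    rw [← h2]
    exact h1
  set ρ := μ.real {z | Br (π z)} with hρdef
  have hρ2 : ρ ≤ δ / 2 := by
    calc ρ ≤ C * (δ * Real.sqrt δ) := hρ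
      _ = (C * Real.sqrt δ) * δ := by ring
      _ ≤ 1 / 2 * δ := mul_le_mul_of_nonneg_right hC hδ.le
      _ = δ / 2 := by ring
  -- one of the transpositions has large probability
  have hex : ∃ s t : D, s ≠ t ∧ δ / (2 * n ^ 2) ≤ μ.real {z | π z = Equiv.swap s t} := by
    by_contra hcon
    push Not at hcon
    have hsub : {z | π z ≠ 1} ⊆ {z | Br (π z)} ∪
        ⋃ p ∈ (Finset.univ : Finset D).offDiag, {z | π z = Equiv.swap p.1 p.2} := by
      intro z hz
      by_cases hb : Br (π z)
      · exact Or.inl hb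
      · right
        unfold Br at hb
        push Not at hb
        obtain ⟨x, y, hxy, he⟩ := hb hz
        simp only [Set.mem_iUnion]
        exact ⟨(x, y), by simpa using hxy, he⟩
    have h1 : δ ≤ ρ + ∑ p ∈ (Finset.univ : Finset D).offDiag,
        μ.real {z | π z = Equiv.swap p.1 p.2} := by
      calc δ ≤ μ.real ({z | Br (π z)} ∪
          ⋃ p ∈ (Finset.univ : Finset D).offDiag, {z | π z = Equiv.swap p.1 p.2}) :=
            measureReal_mono hsub
        _ ≤ μ.real {z | Br (π z)} + μ.real
          (⋃ p ∈ (Finset.univ : Finset D).offDiag, {z | π z = Equiv.swap p.1 p.2}) :=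
            measureReal_union_le _ _
        _ ≤ _ := by
          gcongr
          exact measureReal_biUnion_finset_le _ _
    have h2 : ∑ p ∈ (Finset.univ : Finset D).offDiag,
        μ.real {z | π z = Equiv.swap p.1 p.2} ≤ (n ^ 2 - n) * (δ / (2 * n ^ 2)) := by
      calc _ ≤ ∑ _p ∈ (Finset.univ : Finset D).offDiag, δ / (2 * n ^ 2) := by
            apply Finset.sum_le_sum
            intro p hp
            rw [Finset.mem_offDiag] at hp
            exact (hcon p.1 p.2 hp.2.2).le
        _ = _ := by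
          rw [Finset.sum_const, Finset.offDiag_card, nsmul_eq_mul, Finset.card_univ,
            Nat.cast_sub (Nat.le_mul_self _), Nat.cast_mul, pow_two]
    have h3 : (n ^ 2 - n) * (δ / (2 * n ^ 2)) < δ / 2 := by
      have hc : 0 < δ / (2 * n ^ 2) := by positivity
      have e1 : n ^ 2 * (δ / (2 * n ^ 2)) = δ / 2 := by
        have : n ≠ 0 := by linarith
        field_simp
      nlinarith
    linarith
  obtain ⟨s, t, hst, h1⟩ := hex
  refine ⟨s, t, hst, ?_⟩
  have h2 := hRun A E S D T ν π J hπ hedge hJ s t hst k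
  refine le_trans ?_ h2
  have h3 : (k : ℝ) * ρ ≤ δ / (4 * n ^ 2) := by
    calc (k : ℝ) * ρ ≤ k * (C * (δ * Real.sqrt δ)) :=
          mul_le_mul_of_nonneg_left hρ (Nat.cast_nonneg _)
      _ = (k * C * Real.sqrt δ) * δ := by ring
      _ ≤ 1 / (4 * n ^ 2) * δ := mul_le_mul_of_nonneg_right hk hδ.le
      _ = _ := by ring
  have h4 : δ / (2 * n ^ 2) = δ / (4 * n ^ 2) + δ / (4 * n ^ 2) := by
    have : n ≠ 0 := by linarith
    field_simp
    ring
  rw [h4] at h1
  linarith

end Pool.Agent.Helper15.OIP
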